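import Mathlib
import Pool.Agent.Y667.OG.Main
import Pool.Agent.Y667.PA.Ord
import Pool.Agent.Y667.RP.Disc
import Pool.Agent.W672.FK.Lowf
import Pool.Agent.W307.RT.Tors

/-!
# The Birch–Swinnerton-Dyer conjecture modulo 2 over the Galois number fields of odd degree

All elliptic curves `E` over `ℚ` with full rational 2-torsion, ordered by the naive height or by the
absolute value of the minimal discriminant. For every `r ≥ 0` a positive proportion of the curves has
a 2-Selmer group over `ℚ` of order `2 ^ (r + 2)`, rank over `ℚ` at most `r`, and, for EVERY Galois number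
field `K` of odd degree, root number `w(E/K) = (-1) ^ r`, `ord_{s=1} Λ(E/K, s) ≡ r` modulo 2 and a rank of
the parity of the rank over `ℚ`. For `r = 0`: `ord_{s=1} Λ(E/K, s) ≡ rk(E/K) ≡ 0` modulo 2, that is, the
Birch–Swinnerton-Dyer conjecture modulo 2 holds for `E` over all Galois number fields of odd degree.

The completed L-function `Λ(E/K, s)` is entire and has the functional equation with the sign
`w(E/K)` by the modularity of `E` and base change (a Galois extension of odd degree is solvable); the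
theorem is about every function `Λ` with these properties (`Completed`).
-/

namespace Pool.Agent.Results.MP_413b36_nt.OrderParityOddGalois

open Finset Filter Topology NumberField

/-- the curve `y² = x³ + A x + B` over `ℚ` -/
def E (A B : ℤ) : WeierstrassCurve ℚ := ⟨0, 0, 0, (A : ℚ), (B : ℚ)⟩

/-- the absolute value of the minimal discriminant of an elliptic curve `W` over `ℚ`: the smallest
absolute value of the discriminant of a Weierstrass equation `V` with integer coefficients which is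
isomorphic to `W` over `ℚ` -/
noncomputable def minDisc (W : WeierstrassCurve ℚ) : ℕ :=
  sInf {n : ℕ | ∃ (V : WeierstrassCurve ℤ) (C : WeierstrassCurve.VariableChange ℚ),
    C • W = V.map (Int.castRingHom ℚ) ∧ n = V.Δ.natAbs}

/-- the naive height of `y² = x³ + A x + B` is at most `Z` -/
def HeightLe (c : ℤ × ℤ) (Z : ℕ) : Prop := 4 * |c.1| ^ 3 ≤ Z ∧ 27 * c.2 ^ 2 ≤ Z

/-- the minimal discriminant of `y² = x³ + A x + B` is at most `Z` in absolute value -/
def DiscLe (c : ℤ × ℤ) (Z : ℕ) : Prop := minDisc (E c.1 c.2) ≤ Z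

/-- The pairs `(A, B)` of integers such that `4 A³ + 27 B² ≠ 0`, there is no prime `p` with
`p⁴ ∣ A` and `p⁶ ∣ B`, `Z/2 x Z/2` embeds in the group of the rational points of
`y² = x³ + A x + B`, and the size (`HeightLe` or `DiscLe`) is at most `Z`. Every elliptic curve over
`ℚ` with full rational 2-torsion is isomorphic to `E A B` for exactly one pair with the first three
properties. -/
def Fam (I : ℤ × ℤ → ℕ → Prop) (Z : ℕ) : Set (ℤ × ℤ) :=
  {c : ℤ × ℤ | 4 * c.1 ^ 3 + 27 * c.2 ^ 2 ≠ 0 ∧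
    (∀ p : ℕ, p.Prime → ¬ ((p : ℤ) ^ 4 ∣ c.1 ∧ (p : ℤ) ^ 6 ∣ c.2)) ∧
    (∃ f : ZMod 2 × ZMod 2 →+ (E c.1 c.2).toAffine.Point, Function.Injective f) ∧ I c Z}

/-- the proportion of the curves of `S` among the curves of size at most `Z` -/
noncomputable def proportion (I : ℤ × ℤ → ℕ → Prop) (S : Set (ℤ × ℤ)) (Z : ℕ) : ℝ :=
  ((Fam I Z ∩ S).ncard : ℝ) / (Fam I Z).ncard

lemma FamH_eq (H : ℕ) : Fam HeightLe H = (Pool.Agent.W307.RT.Cv 2 H : Set (ℤ × ℤ)) := by
  classical
  ext c
  have h : Pool.Agent.W307.RT.HasT 2 (Pool.Agent.W307.RT.Sh c.1 c.2) ↔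
    ∃ f : ZMod 2 × ZMod 2 →+ (E c.1 c.2).toAffine.Point, Function.Injective f :=
    Pool.Agent.W307.RT.tors_iff
  unfold Fam HeightLe Pool.Agent.W307.RT.Cv
  rw [Set.mem_ofPred_eq, mem_coe, mem_filter, h, mem_product, mem_Icc, mem_Icc]
  constructor
  · rintro ⟨h1, h2, h3, h4, h5⟩
    refine ⟨⟨?_, ?_⟩, h1, h4, h5, h2, h3⟩
    · rw [← abs_le]
      have h0 := abs_nonneg c.1
      rcases eq_or_lt_of_le h0 with h6 | h6
      · rw [← h6]; positivity
      · have : 1 ≤ |c.1| := h6
        nlinarith [mul_nonneg h0 h0, mul_self_nonneg (|c.1| - 1)]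
    · rw [← abs_le]
      have h0 := abs_nonneg c.2
      rw [← sq_abs] at h5
      rcases eq_or_lt_of_le h0 with h6 | h6
      · rw [← h6]; positivity
      · have : 1 ≤ |c.2| := h6
        nlinarith
  · rintro ⟨-, h1, h4, h5, h2, h3⟩
    exact ⟨h1, h2, h3, h4, h5⟩

lemma FamD_eq (D : ℕ) : Fam DiscLe D = (Pool.Agent.TH344.DS.Dv D : Set (ℤ × ℤ)) := by
  classical
  have h0 : Fam DiscLe D = Pool.Agent.W307.RS.DvS 2 D := by
    ext c
    have h : Pool.Agent.W307.RT.HasT 2 (Pool.Agent.W307.RT.Sh c.1 c.2) ↔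
        ∃ f : ZMod 2 × ZMod 2 →+ (E c.1 c.2).toAffine.Point, Function.Injective f :=
      Pool.Agent.W307.RT.tors_iff
    unfold Fam Pool.Agent.W307.RS.DvS
    rw [Set.mem_ofPred_eq, Set.mem_ofPred_eq, h]
    exact Iff.rfl
  rw [h0]
  unfold Pool.Agent.TH344.DS.Dv
  rw [dif_pos (Pool.Agent.TH344.DS.excd.1 D), Set.Finite.coe_toFinset]

/-- The number of these curves tends to infinity (ordering by height). -/
lemma tendstoH : Tendsto (fun Z : ℕ => (Fam HeightLe Z).ncard) atTop atTop := by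
  simp only [FamH_eq, Set.ncard_coe_finset]
  exact Pool.Agent.W307.RT.tendsto_of_low Pool.Agent.W672.FK.lowf

/-- The number of these curves tends to infinity (ordering by the minimal discriminant). -/
lemma tendstoD : Tendsto (fun Z : ℕ => (Fam DiscLe Z).ncard) atTop atTop := by
  have h1 := Pool.Agent.W307.RT.tendsto_of_low Pool.Agent.W672.FK.lowf
  have h2 : Tendsto (fun D : ℕ => (Pool.Agent.W307.RT.Cv 2 (D / 32)).card) atTop atTop :=
    h1.comp (Nat.tendsto_div_const_atTop (by norm_num))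
  obtain ⟨hD1, hD2, hD3⟩ := Pool.Agent.TH344.DS.excd
  refine tendsto_atTop_mono (fun D => ?_) h2
  have h3 : (Pool.Agent.TH344.DS.Dv D : Set (ℤ × ℤ)) = Pool.Agent.W307.RS.DvS 2 D := by
    unfold Pool.Agent.TH344.DS.Dv
    rw [dif_pos (hD1 D), Set.Finite.coe_toFinset]
  rw [FamD_eq, h3, ← Set.ncard_coe_finset]
  exact Set.ncard_le_ncard (Pool.Agent.W307.RS.Cv_sub Pool.Agent.W554.RS.mdl 2 (D / 32) D
    (Nat.mul_div_le D 32)) (hD1 D)

/-- The local condition at a completion `K` of `ℚ`: there is a point `(x, y)`, `y ≠ 0`, of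
`y² = x³ + A x + B` over `K` such that `(x - e) * d e` is a square for all the integer roots `e` of
`x³ + A x + B`. (Every class of `E(K) / 2 E(K)` contains a point with `y ≠ 0`.) -/
def Local (K : Type) [Field K] (A B : ℤ) (d : ℤ → ℤ) : Prop :=
  ∃ x y : K, y ≠ 0 ∧ y ^ 2 = x ^ 3 + A * x + B ∧
    ∀ e : ℤ, e ^ 3 + A * e + B = 0 → IsSquare ((x - e) * d e)

/-- The 2-Selmer group of `y² = x³ + A x + B`, a curve with three integer roots. As `E[2]` is the
group of the families of signs with product one indexed by the roots, an element of the 2-Selmer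
group is a family of classes of nonzero rational numbers modulo squares indexed by the roots `e`,
given by squarefree integers `d e` (`d e = 1` if `e` is not a root), which over `ℝ` and over `ℚ_[p]`
for all primes `p` is the family of the classes of `x - e` for a point of the curve. -/
def Sel2 (A B : ℤ) : Set (ℤ → ℤ) :=
  {d | (∀ e, Squarefree (d e)) ∧ (∀ e : ℤ, e ^ 3 + A * e + B ≠ 0 → d e = 1) ∧ Local ℝ A B d ∧
    ∀ (p : ℕ) [Fact p.Prime], Local ℚ_[p] A B d}

/-- the Mordell-Weil rank over `ℚ` -/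
noncomputable def rank (c : ℤ × ℤ) : ℕ := Module.finrank ℤ (E c.1 c.2).toAffine.Point

section fields

variable (K : Type) [Field K] [NumberField K]

/-- the curve `y² = x³ + A x + B` over `K` -/
def EK (A B : ℤ) : WeierstrassCurve K := ⟨0, 0, 0, (A : K), (B : K)⟩

open Classical in
/-- the Mordell-Weil rank over `K` -/
noncomputable def rankK (c : ℤ × ℤ) : ℕ := Module.finrank ℤ (EK K c.1 c.2).toAffine.Point

variable {K}

/-- `V` is an equation with coefficients in the ring of integers of the curve `W` over `K` -/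
def ModelOf (W : WeierstrassCurve K) (V : WeierstrassCurve (𝓞 K)) : Prop :=
  ∃ C : WeierstrassCurve.VariableChange K, C • W = V.map (algebraMap (𝓞 K) K)

/-- `a_P = N(P) + 1 - #V(𝓞 K / P)`, that is `N(P)` minus the number of the affine solutions of the
Weierstrass equation modulo `P`; for a prime of multiplicative reduction this is `1` (split) or `-1`
(non-split) -/
noncomputable def aP (V : WeierstrassCurve (𝓞 K)) (P : Ideal (𝓞 K)) : ℤ :=
  (Nat.card (𝓞 K ⧸ P) : ℤ) - Nat.card {z : (𝓞 K ⧸ P) × (𝓞 K ⧸ P) //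
    (V.map (Ideal.Quotient.mk P)).toAffine.Equation z.1 z.2}

/-- the quadratic twist by `d` of the curve `V` (the curve `y² = x³ + b₂ x² + 8 b₄ x + 16 b₆`) -/
def twist (V : WeierstrassCurve (𝓞 K)) (d : 𝓞 K) : WeierstrassCurve K :=
  ⟨0, (d : K) * (V.b₂ : K), 0, 8 * (d : K) ^ 2 * (V.b₄ : K), 16 * (d : K) ^ 3 * (V.b₆ : K)⟩

open Classical in
/-- `w` is the local root number of the elliptic curve `W` at the prime `P`, for three types of
reduction at `P`: good reduction (`1`), multiplicative reduction (`-a_P`), and, for `P` prime to `2`,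
the quadratic twist by an integer `d` of odd valuation `n` at `P` of a curve with good reduction at `P`
(`1` if `-1` is a square modulo `P` and `-1` otherwise) -/
def LocalRoot (W : WeierstrassCurve K) (P : Ideal (𝓞 K)) (w : ℤ) : Prop :=
  (∃ V : WeierstrassCurve (𝓞 K), ModelOf W V ∧ V.Δ ∉ P ∧ w = 1) ∨
  (∃ V : WeierstrassCurve (𝓞 K), ModelOf W V ∧ V.Δ ∈ P ∧ V.c₄ ∉ P ∧ w = -aP V P) ∨
  ((2 : 𝓞 K) ∉ P ∧ ∃ (V : WeierstrassCurve (𝓞 K)) (d : 𝓞 K) (n : ℕ), Odd n ∧ d ∈ P ^ n ∧
    d ∉ P ^ (n + 1) ∧ (∃ C : WeierstrassCurve.VariableChange K, C • W = twist V d) ∧ V.Δ ∉ P ∧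
    w = if IsSquare (-1 : 𝓞 K ⧸ P) then 1 else -1)

/-- `w` is the root number `w(W/K)`: the product over all the places of the local root numbers, which
are `-1` at the infinite places, `f P` at the primes `P`, and `1` outside the finite set `S` -/
def RootNumber (W : WeierstrassCurve K) (w : ℤ) : Prop :=
  ∃ f : Ideal (𝓞 K) → ℤ, (∀ P : Ideal (𝓞 K), P.IsPrime → P ≠ ⊥ → LocalRoot W P (f P)) ∧
    ∃ S : Finset (Ideal (𝓞 K)), (∀ P ∈ S, P.IsPrime ∧ P ≠ ⊥) ∧
      (∀ P : Ideal (𝓞 K), P.IsPrime → P ≠ ⊥ → P ∉ S → f P = 1) ∧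
      w = (-1) ^ Nat.card (InfinitePlace K) * ∏ P ∈ S, f P

/-- `V` is an equation of the curve `W` with coefficients in the ring of integers, minimal at `P` -/
def MinimalAt (W : WeierstrassCurve K) (P : Ideal (𝓞 K)) (V : WeierstrassCurve (𝓞 K)) : Prop :=
  ModelOf W V ∧ ∀ V' : WeierstrassCurve (𝓞 K), ModelOf W V' → ∀ n : ℕ, V.Δ ∈ P ^ n → V'.Δ ∈ P ^ n

open Classical in
/-- the inverse of the local factor at `P`: `1 - a_P N(P)^{-s} + N(P)^{1-2s}` if the reduction is good
and `1 - a_P N(P)^{-s}` if it is bad, for an equation `V` minimal at `P` -/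
noncomputable def euler (V : WeierstrassCurve (𝓞 K)) (P : Ideal (𝓞 K)) (s : ℂ) : ℂ :=
  1 - (aP V P : ℂ) * (Nat.card (𝓞 K ⧸ P) : ℂ) ^ (-s) +
    if V.Δ ∈ P then 0 else (Nat.card (𝓞 K ⧸ P) : ℂ) ^ (1 - 2 * s)

/-- `Λ` is the completed L-function of `W` over `K` and has the functional equation with the sign `w`:
it is entire, `Λ(s) = w Λ(2 - s)`, it is not identically zero and for `Re s > 3/2` it is
`(2 (2π)^{-s} Γ(s))^{[K:ℚ]} A^{s/2} L(E/K, s)`, where `L(E/K, s)` is the Euler product over the nonzero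
primes and `A` is a positive integer (the norm of the conductor times the square of the discriminant
of `K`) -/
def Completed (W : WeierstrassCurve K) (w : ℤ) (Λ : ℂ → ℂ) : Prop :=
  Differentiable ℂ Λ ∧ (∀ s, Λ s = w * Λ (2 - s)) ∧ (∃ s, Λ s ≠ 0) ∧
    ∃ (A : ℕ) (V : {P : Ideal (𝓞 K) // P.IsPrime ∧ P ≠ ⊥} → WeierstrassCurve (𝓞 K)), 0 < A ∧
      (∀ P, MinimalAt W P.1 (V P)) ∧ ∀ s : ℂ, 3 / 2 < s.re →
        Λ s = (2 * (2 * (Real.pi : ℂ)) ^ (-s) * Complex.Gamma s) ^ Module.finrank ℚ K *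
          (A : ℂ) ^ (s / 2) *
            ∏' P : {P : Ideal (𝓞 K) // P.IsPrime ∧ P ≠ ⊥}, (euler (V P) P.1 s)⁻¹

end fields

/-- the curves with a 2-Selmer group over `ℚ` of order `2 ^ (r + 2)` and rank over `ℚ` at most `r`, such
that for all Galois number fields `K` of odd degree the root number is `w(E/K) = (-1) ^ r`, the rank
over `K` has the parity of the rank over `ℚ` and the order of vanishing at `s = 1` of the completed
L-function has the parity of `r`, and, if `r = 0`, the parity of the rank over `K` -/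
def BSDMod2 (r : ℕ) : Set (ℤ × ℤ) :=
  {c | (Sel2 c.1 c.2).Finite ∧ (Sel2 c.1 c.2).ncard = 2 ^ (r + 2) ∧ rank c ≤ r ∧
    ∀ (K : Type) [Field K] [NumberField K] [IsGalois ℚ K], Odd (Module.finrank ℚ K) →
      RootNumber (EK K c.1 c.2) ((-1) ^ r) ∧ Even (rankK K c + rank c) ∧
        ∀ Λ : ℂ → ℂ, Completed (EK K c.1 c.2) ((-1) ^ r) Λ →
          Even (analyticOrderNatAt Λ 1 + r) ∧ (r = 0 → Even (analyticOrderNatAt Λ 1 + rankK K c))}

lemma map_eq (K : Type) [Field K] [NumberField K] (A B : ℤ) :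
    (⟨0, 0, 0, (A : ℚ), (B : ℚ)⟩ : WeierstrassCurve ℚ).map (algebraMap ℚ K) = EK K A B := by
  apply WeierstrassCurve.ext
  · exact map_zero _
  · exact map_zero _
  · exact map_zero _
  · exact map_intCast _ _
  · exact map_intCast _ _

lemma parity_of {r : ℕ} {c : ℤ × ℤ} (hD : 4 * c.1 ^ 3 + 27 * c.2 ^ 2 ≠ 0)
    (hT : ∃ f : ZMod 2 × ZMod 2 →+ (E c.1 c.2).toAffine.Point, Function.Injective f)
    (h : Pool.Agent.Y667.OG.TOG r c) : c ∈ BSDMod2 r := by
  have hT' := Pool.Agent.W307.RT.tors_iff.2 hT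
  have hr := Pool.Agent.Y667.MT.rank_le hD hT' h.1.1 h.1.2.1
  refine ⟨h.1.1, h.1.2.1, hr, ?_⟩
  intro K _ _ _ hodd
  have hev : Even (rankK K c + rank c) := by
    have h1 := Pool.Agent.Y667.OG.even_rank K hodd hD hT'
    have h2 : (Pool.Agent.W307.RT.Sh c.1 c.2).baseChange K = EK K c.1 c.2 := map_eq K c.1 c.2
    unfold rankK
    rw [h2] at h1
    exact h1
  refine ⟨?_, hev, fun Λ hΛ => ?_⟩
  · rw [← map_eq]
    exact h.2 K hodd
  · have h3 := Pool.Agent.Y667.PA.ord_par hΛ.1 hΛ.2.1 r rfl hΛ.2.2.1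
    refine ⟨h3, fun h0 => ?_⟩
    subst h0
    have h4 : rank c = 0 := Nat.le_zero.1 hr
    rw [h4, add_zero] at hev
    rw [add_zero] at h3
    exact h3.add hev

/-- **Theorem.** Order the elliptic curves over `ℚ` with full rational 2-torsion by the naive height
or by the absolute value of the minimal discriminant. For both orderings there are finitely many
curves of size at most `Z`, their number tends to infinity with `Z`, and for every `r ≥ 0` a
positive proportion of them (the lower density is positive) has a 2-Selmer group over `ℚ` of order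
`2 ^ (r + 2)`, rank over `ℚ` at most `r` and, over every Galois number field `K` of odd degree, root
number `(-1) ^ r`, `ord_{s=1} Λ(E/K, s) ≡ r` modulo 2 and a rank of the parity of the rank over `ℚ`. For
`r = 0`: `ord_{s=1} Λ(E/K, s) ≡ rk(E/K)` modulo 2 for all these fields. -/
theorem result : ∀ I : ℤ × ℤ → ℕ → Prop, I = HeightLe ∨ I = DiscLe →
    (∀ Z : ℕ, (Fam I Z).Finite) ∧ Tendsto (fun Z : ℕ => (Fam I Z).ncard) atTop atTop ∧
    ∀ r : ℕ, ∃ δ : ℝ, 0 < δ ∧ ∀ᶠ Z : ℕ in atTop, δ ≤ proportion I (BSDMod2 r) Z := by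
  classical
  have h0 : ∀ r : ℕ, ∃ c : ℝ, 0 < c ∧ ∃ H0 : ℕ, ∀ H : ℕ, H0 ≤ H →
      c * ((Pool.Agent.W307.RT.Cv 2 H).card : ℝ) ≤
        (((Pool.Agent.W307.RT.Cv 2 H).filter (Pool.Agent.Y667.OG.TOG r)).card : ℝ) := by
    intro r
    obtain ⟨c, hc, H0, h⟩ := Pool.Agent.Y667.OG.curvesOG r
    refine ⟨c, hc, H0, fun H hH => (h H hH).trans
      (Nat.cast_le.2 (card_le_card fun k hk => ?_))⟩
    rw [mem_filter] at hk ⊢
    exact hk
  have hsub : ∀ (I : ℤ × ℤ → ℕ → Prop) (Z r : ℕ) (k : ℤ × ℤ), k ∈ Fam I Z →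
      Pool.Agent.Y667.OG.TOG r k → k ∈ Fam I Z ∩ BSDMod2 r := by
    intro I Z r k hk hPk
    exact ⟨hk, parity_of hk.1 hk.2.2.1 hPk⟩
  intro I hI
  rcases hI with rfl | rfl
  · refine ⟨fun Z => ?_, tendstoH, ?_⟩
    · rw [FamH_eq]
      exact finite_toSet _
    · intro r
      obtain ⟨c, hc, H0, h⟩ := h0 r
      refine ⟨c, hc, ?_⟩
      filter_upwards [eventually_ge_atTop H0, tendstoH.eventually_ge_atTop 1] with H hH hH1
      unfold proportion
      rw [le_div_iff₀ (by exact_mod_cast hH1)]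
      have e1 : (Fam HeightLe H).ncard = (Pool.Agent.W307.RT.Cv 2 H).card := by
        rw [FamH_eq, Set.ncard_coe_finset]
      rw [e1]
      refine (h H hH).trans (Nat.cast_le.2 ?_)
      rw [← Set.ncard_coe_finset]
      refine Set.ncard_le_ncard (fun k hk => ?_) (Set.Finite.inter_of_left (by
        rw [FamH_eq]
        exact finite_toSet _) _)
      rw [mem_coe, mem_filter] at hk
      refine hsub _ _ r k ?_ hk.2
      rw [FamH_eq, mem_coe]
      exact hk.1
  · refine ⟨fun Z => ?_, tendstoD, ?_⟩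
    · rw [FamD_eq]
      exact finite_toSet _
    · intro r
      obtain ⟨c, hc, H0, h⟩ := Pool.Agent.Y667.RP.disc_of_height (Pool.Agent.Y667.OG.TOG r) (h0 r)
      refine ⟨c, hc, ?_⟩
      filter_upwards [eventually_ge_atTop H0, tendstoD.eventually_ge_atTop 1] with H hH hH1
      unfold proportion
      rw [le_div_iff₀ (by exact_mod_cast hH1)]
      have e1 : (Fam DiscLe H).ncard = (Pool.Agent.TH344.DS.Dv H).card := by
        rw [FamD_eq, Set.ncard_coe_finset]
      rw [e1]
      refine (h H hH).trans (Nat.cast_le.2 ?_)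
      rw [← Set.ncard_coe_finset]
      refine Set.ncard_le_ncard (fun k hk => ?_) (Set.Finite.inter_of_left (by
        rw [FamD_eq]
        exact finite_toSet _) _)
      rw [mem_coe, mem_filter] at hk
      refine hsub _ _ r k ?_ hk.2
      rw [FamD_eq, mem_coe]
      exact hk.1

end Pool.Agent.Results.MP_413b36_nt.OrderParityOddGalois
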