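import Mathlib
import Pool.Agent.Y696.Nm

/-!
# The Birch and Swinnerton-Dyer conjecture for `y² + y = x³` over fields without cube roots of unity
under the abelian extensions of `ℚ(√-3, √-7)`

`k` is a number field without `√-3` and `K = k(√-3)` is a Galois extension of degree `2 ^ n` of
`N = ℚ(√-3, √-7)` with an Artin map of modulus `c`, and `2` is not a cube modulo any prime of `N`
that divides `c`. So `k` contains `√21` or `√-7`, and in general it is not Galois over `ℚ`, nor is
`K` over the field of complex multiplication. Then the order at one of the `L`-function over `k` and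
the rank of `E(k)` are both zero, and the 2-part of the conjecture holds.
-/

set_option autoImplicit false

namespace Pool.Agent.Results.MP_413b36_nt.RankOverQuarticTowers

open NumberField IsDedekindDomain Pool.Agent.Y696
open scoped Classical

theorem result :
    (∃ (Λ : PeriodPair) (ω : ℝ), IsPeriods Λ ω) ∧
    (∀ (N : Type) [Field N] [NumberField N], Module.finrank ℚ N = 4 →
      (∃ a : N, a ^ 2 = -3) → (∃ b : N, b ^ 2 = -7) →
      ∀ (K : Type) [Field K] [NumberField K] [Algebra N K] [IsGalois N K] (n : ℕ),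
      Module.finrank N K = 2 ^ n →
      ∀ (c : 𝓞 N) (art : (𝓞 N ⧸ Ideal.span {c})ˣ →* Gal(K/N)), IsArtin c art →
      (∀ v₀ : HeightOneSpectrum (𝓞 N), c ∈ v₀.asIdeal → ∀ x : 𝓞 N, x ^ 3 - 2 ∉ v₀.asIdeal) →
      ∀ (k : Type) [Field k] [NumberField k] [Algebra k K], Module.finrank k K = 2 →
      (∀ x : k, x ^ 2 ≠ -3) → TwoPart k) := by
  refine ⟨?_, fun N _ _ h4 ⟨a, ha⟩ ⟨b, hb⟩ K _ _ _ _ n hn c art h hc k _ _ _ h2 hns =>
    all_smallN h4 ha hb h2 hns hn h hc⟩
  obtain ⟨Λ, ω, h1, h2, h3⟩ := exists_real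
  exact ⟨Λ, ω, h1, h2, h3⟩

end Pool.Agent.Results.MP_413b36_nt.RankOverQuarticTowers
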