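import Mathlib
import Pool.Agent.Y696.Nh

/-!
# The 2-part of the Birch and Swinnerton-Dyer conjecture for `y² + y = x³` over abelian extensions
of 2-power degree of `ℚ(√-3, √-7)`

`N = ℚ(√-3, √-7)` (of class number one), `K / N` is a Galois extension of degree `2 ^ n` with an
Artin map of modulus `c` over `N`, and `2` is not a cube modulo any prime of `N` that divides `c`.
Then the 2-part of the conjecture holds for `y² + y = x³` over `K`, with all the terms units at `2`.
The field `K` need not be Galois over `ℚ(√-3)`, which is the field of complex multiplication.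
-/

set_option autoImplicit false

namespace Pool.Agent.Results.MP_413b36_nt.TwoPartQuartic

open NumberField IsDedekindDomain Pool.Agent.Y696
open scoped Classical

theorem result :
    (∃ (Λ : PeriodPair) (ω : ℝ), IsPeriods Λ ω) ∧
    (∀ (N : Type) [Field N] [NumberField N], Module.finrank ℚ N = 4 →
      (∃ a : N, a ^ 2 = -3) → (∃ b : N, b ^ 2 = -7) →
      ∀ (K : Type) [Field K] [NumberField K] [Algebra N K] [IsGalois N K] (n : ℕ),
      Module.finrank N K = 2 ^ n →
      ∀ (c : 𝓞 N) (art : (𝓞 N ⧸ Ideal.span {c})ˣ →* Gal(K/N)), IsArtin c art →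
      (∀ v₀ : HeightOneSpectrum (𝓞 N), c ∈ v₀.asIdeal → ∀ x : 𝓞 N, x ^ 3 - 2 ∉ v₀.asIdeal) →
      TwoPart K) := by
  refine ⟨?_, fun N _ _ h4 ⟨a, ha⟩ ⟨b, hb⟩ K _ _ _ _ n hn c art h hc => all_N h4 ha hb hn h hc⟩
  obtain ⟨Λ, ω, h1, h2, h3⟩ := exists_real
  exact ⟨Λ, ω, h1, h2, h3⟩

end Pool.Agent.Results.MP_413b36_nt.TwoPartQuartic
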