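import Mathlib
import Pool.Agent.Y696.Gq

/-!
# The 2-part of the Birch and Swinnerton-Dyer conjecture for `y² + y = x³` over number fields of
2-power degree that do not contain `√-3`

`k` is a number field of degree `2 ^ n` without `√-3`, `K = k(√-3)` has an Artin map of modulus `c`
over the field `F` of third roots of unity (so `K / F` is abelian), and `2` is not a cube modulo any
prime of `F` that divides `c`. Then the 2-part of the conjecture holds for `y² + y = x³` over `k`,
with all the terms units at `2`. These fields include all the subfields `k` of `ℚ(ζ_{3m})` of 2-power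
degree without `√-3`, if `2` is not a cube modulo any prime number that divides `m`.
-/

set_option autoImplicit false

namespace Pool.Agent.Results.MP_413b36_nt.TwoPartReal

open NumberField IsDedekindDomain Pool.Agent.Y696
open scoped Classical

theorem result :
    (∃ (Λ : PeriodPair) (ω : ℝ), IsPeriods Λ ω) ∧
    (∀ (k : Type) [Field k] [NumberField k] (n : ℕ), Module.finrank ℚ k = 2 ^ n →
      (∀ x : k, x ^ 2 ≠ -3) →
      ∀ (F K : Type) [Field F] [NumberField F] [IsCyclotomicExtension {3} ℚ F] [Field K]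
        [NumberField K] [Algebra F K] [Algebra k K] [IsGalois F K], Module.finrank k K = 2 →
      ∀ (c : 𝓞 F) (art : (𝓞 F ⧸ Ideal.span {c})ˣ →* Gal(K/F)), IsArtin c art →
      (∀ v₀ : HeightOneSpectrum (𝓞 F), c ∈ v₀.asIdeal → ∀ x : 𝓞 F, x ^ 3 - 2 ∉ v₀.asIdeal) →
      TwoPart k) ∧
    (∀ (m : ℕ) [NeZero m] (M : Type) [Field M] [NumberField M]
      [IsCyclotomicExtension {3 * m} ℚ M] (k : IntermediateField ℚ M) (n : ℕ),
      Module.finrank ℚ k = 2 ^ n → (∀ x : k, x ^ 2 ≠ -3) →
      (∀ q : ℕ, q.Prime → q ∣ m → ∀ x : ZMod q, x ^ 3 ≠ 2) → TwoPart k) := by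
  refine ⟨?_, fun k _ _ n hn hns F K _ _ _ _ _ _ _ _ h2 c art h hc => all_small hn h2 hns h hc,
    fun m _ M _ _ _ k n hn hns h => cyc_small k hn hns h⟩
  obtain ⟨Λ, ω, h1, h2, h3⟩ := exists_real
  exact ⟨Λ, ω, h1, h2, h3⟩

end Pool.Agent.Results.MP_413b36_nt.TwoPartReal
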